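import Pool.Agent.Q30.Cog.Riesz

/-!
# The limit measure of the nonlinear Riesz product
-/

set_option autoImplicit false
open Filter Topology MeasureTheory Set

namespace Pool.Agent.Q30.Cog

noncomputable section

/-- the interval -/
abbrev E : Type := Icc (1 / 4 : ℝ) (1 / 2)

/-- Lebesgue measure on the interval -/
def mu0 : Measure E := Measure.comap Subtype.val volume

instance : IsFiniteMeasure mu0 := by
  constructor
  unfold mu0
  rw [Measure.comap_apply _ Subtype.val_injective (fun s hs => MeasurableSet.subtype_image measurableSet_Icc hs)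
    _ MeasurableSet.univ, image_univ, Subtype.range_coe, Real.volume_Icc]
  exact ENNReal.ofReal_lt_top

lemma G_bdd (k : ℕ) : ∃ C : ℝ, ∀ x : E, G k x ≤ C := by
  obtain ⟨C, hC⟩ := isCompact_Icc.exists_bound_of_continuousOn (s := Icc (1 / 4 : ℝ) (1 / 2))
    (G_cont k).continuousOn
  exact ⟨C, fun x => (le_abs_self _).trans (hC x x.2)⟩

instance (k : ℕ) : IsFiniteMeasure (mu0.withDensity (fun x => ENNReal.ofReal (G k x))) := by
  obtain ⟨C, hC⟩ := G_bdd k
  apply isFiniteMeasure_withDensity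
  refine ne_of_lt (lt_of_le_of_lt (lintegral_mono (fun x => ENNReal.ofReal_le_ofReal (hC x))) ?_)
  rw [lintegral_const]
  exact ENNReal.mul_lt_top ENNReal.ofReal_lt_top (measure_lt_top _ _)

/-- the approximating measures -/
def ms (k : ℕ) : FiniteMeasure E := ⟨mu0.withDensity (fun x => ENNReal.ofReal (G k x)), inferInstance⟩

lemma ms_integral (k : ℕ) (t : ℝ) (n : ℕ) : ∫ x : E, ep t n x ∂(ms k : Measure E) = F k t n := by
  have h1 : (ms k : Measure E) = mu0.withDensity (fun x => ENNReal.ofReal (G k x)) := rfl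
  rw [h1, integral_withDensity_eq_integral_toReal_smul]
  · have h2 : ∫ x : E, (ENNReal.ofReal (G k x)).toReal • ep t n x ∂mu0 =
        ∫ x in Icc (1 / 4 : ℝ) (1 / 2), (ENNReal.ofReal (G k x)).toReal • ep t n x :=
      integral_subtype_comap measurableSet_Icc
        (fun x : ℝ => (ENNReal.ofReal (G k x)).toReal • ep t n x)
    rw [h2, integral_Icc_eq_integral_Ioc]
    unfold F
    rw [intervalIntegral.integral_of_le (by norm_num)]
    congr 1
    funext y
    rw [ENNReal.toReal_ofReal (G_nonneg k y)]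
    simp
  · exact ((G_cont k).measurable.comp measurable_subtype_coe).ennreal_ofReal
  · filter_upwards with x
    exact ENNReal.ofReal_lt_top

lemma ms_mass (k : ℕ) : (ms k).mass ≤ 1 := by
  have h1 := ms_integral k 0 0
  have h2 : ∀ x : E, ep 0 0 x = 1 := fun x => by simp [ep]
  simp only [h2] at h1
  rw [integral_const] at h1
  have h3 := F_mass k
  rw [← h1] at h3
  have h4 : (ms k : Measure E).real univ ≤ 1 := by
    have h5 := (Complex.abs_re_le_norm _).trans h3
    have h7 : ((ms k : Measure E).real univ • (1 : ℂ) - 1 / 4) =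
        (((ms k : Measure E).real univ - 1 / 4 : ℝ) : ℂ) := by
      push_cast
      simp
    rw [h7, Complex.ofReal_re, abs_le] at h5
    linarith [h5.2]
  have h6 : (((ms k).mass : NNReal) : ℝ) = (ms k : Measure E).real univ := rfl
  rw [← h6] at h4
  exact_mod_cast h4

lemma exists_limit : ∃ μ : FiniteMeasure E, Tendsto ms (hyperfilter ℕ : Filter ℕ) (𝓝 μ) := by
  have hK := isCompact_setOfPred_finiteMeasure_le_of_compactSpace E 1
  have h1 : (((hyperfilter ℕ).map ms : Ultrafilter (FiniteMeasure E)) : Filter (FiniteMeasure E)) ≤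
      𝓟 {μ : FiniteMeasure E | μ.mass ≤ 1} := by
    rw [le_principal_iff]
    exact Filter.mem_map.2 (Filter.univ_mem' (fun k => ms_mass k))
  obtain ⟨μ, -, hμ⟩ := hK.ultrafilter_le_nhds _ h1
  exact ⟨μ, hμ⟩

/-- the limit measure -/
def mu : FiniteMeasure E := exists_limit.choose

lemma mu_spec : Tendsto ms (hyperfilter ℕ : Filter ℕ) (𝓝 mu) := exists_limit.choose_spec

lemma F_tendsto (t : ℝ) (n : ℕ) :
    Tendsto (fun k => F k t n) (hyperfilter ℕ : Filter ℕ) (𝓝 (∫ x : E, ep t n x ∂(mu : Measure E))) := by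
  have h := (FiniteMeasure.tendsto_iff_forall_integral_rclike_tendsto ℂ).1 mu_spec
    (BoundedContinuousFunction.mkOfCompact ⟨fun x : E => ep t n x, (ep_cont t n).comp continuous_subtype_val⟩)
  refine h.congr (fun k => ?_)
  exact ms_integral k t n

lemma hyper_atTop : (hyperfilter ℕ : Filter ℕ) ≤ atTop := by
  rw [← Nat.cofinite_eq_atTop]
  exact hyperfilter_le_cofinite

lemma mu_hat_close (t : ℝ) (j : ℕ) :
    ‖(∫ x : E, ep t 0 x ∂(mu : Measure E)) - F j t 0‖ ≤ (1 / 2) ^ j := by
  have h1 : Tendsto (fun k => ‖F k t 0 - F j t 0‖) (hyperfilter ℕ : Filter ℕ)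
      (𝓝 ‖(∫ x : E, ep t 0 x ∂(mu : Measure E)) - F j t 0‖) :=
    ((F_tendsto t 0).sub_const _).norm
  refine le_of_tendsto h1 ?_
  have h2 : ∀ᶠ k in (hyperfilter ℕ : Filter ℕ), j ≤ k := hyper_atTop (eventually_ge_atTop j)
  filter_upwards [h2] with k hk
  refine (F_tail hk t 0 (by omega)).trans ?_
  have h3 : (0 : ℝ) ≤ (1 / 2) ^ k := by positivity
  have h4 : (0 : ℝ) ≤ (1 / 2) ^ j := by positivity
  linarith

lemma mu_Rajchman : Tendsto (fun t : ℝ => ∫ x : E, ep t 0 x ∂(mu : Measure E)) atTop (𝓝 0) := by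
  rw [Metric.tendsto_atTop]
  intro ε hε
  obtain ⟨j, hj⟩ := exists_pow_lt_of_lt_one (half_pos hε) (by norm_num : (1 / 2 : ℝ) < 1)
  obtain ⟨T, hT⟩ := (Metric.tendsto_atTop.1 (F_RL j)) (ε / 2) (half_pos hε)
  refine ⟨T, fun t ht => ?_⟩
  have h1 := hT t ht
  have h2 := mu_hat_close t j
  rw [dist_zero_right] at h1 ⊢
  have h3 := norm_add_le ((∫ x : E, ep t 0 x ∂(mu : Measure E)) - F j t 0) (F j t 0)
  rw [sub_add_cancel] at h3
  linarith

lemma mu_circle (j : ℕ) : 1 / 16 ≤ (∫ x : E, ep 0 (fr j) x ∂(mu : Measure E)).re := by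
  have h1 : Tendsto (fun k => (F k 0 (fr j)).re) (hyperfilter ℕ : Filter ℕ)
      (𝓝 (∫ x : E, ep 0 (fr j) x ∂(mu : Measure E)).re) :=
    (Complex.continuous_re.tendsto _).comp (F_tendsto 0 (fr j))
  refine ge_of_tendsto h1 ?_
  have h2 : ∀ᶠ k in (hyperfilter ℕ : Filter ℕ), j + 1 ≤ k := hyper_atTop (eventually_ge_atTop _)
  filter_upwards [h2] with k hk
  exact F_large hk

lemma fr_even (j : ℕ) : Even (fr j) := nx_even _

lemma fr_ge (j : ℕ) : j ≤ fr j := by
  induction j with
  | zero => exact Nat.zero_le _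
  | succ j ih =>
    have h1 := fr_two (Nat.lt_succ_self j)
    have h2 : 1 ≤ fr 0 := by
      unfold fr nx
      omega
    rcases Nat.eq_zero_or_pos j with h | h
    · subst h
      simp only [Nat.succ_eq_add_one] at h1
      omega
    · simp only [Nat.succ_eq_add_one] at h1
      omega

end

end Pool.Agent.Q30.Cog
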