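import Pool.Agent.Q30.Cog.Meas

/-!
# The multiplication semigroup on `L²` of the limit measure and its cogenerator
-/

set_option autoImplicit false
open Filter Topology MeasureTheory Set

namespace Pool.Agent.Q30.Cog

noncomputable section

/-- the Hilbert space -/
abbrev H : Type := Lp ℂ 2 (mu : Measure E)

/-- multiplication operators -/
def M : C(E, ℂ) →L[ℂ] (H →L[ℂ] H) :=
  ((ContinuousLinearMap.mul ℂ ℂ).holderL (mu : Measure E) ⊤ 2 2).comp
    (ContinuousMap.toLp ⊤ (mu : Measure E) ℂ)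

lemma M_ae (h : C(E, ℂ)) (f : H) : (M h f : E → ℂ) =ᵐ[(mu : Measure E)] fun x => h x * f x := by
  have h1 := (ContinuousLinearMap.mul ℂ ℂ).coeFn_holder (r := 2)
    (ContinuousMap.toLp ⊤ (mu : Measure E) ℂ h) f
  have h2 := ContinuousMap.coeFn_toLp (p := ⊤) (𝕜 := ℂ) (mu : Measure E) h
  have h3 : M h f = (ContinuousLinearMap.mul ℂ ℂ).holder 2
    (ContinuousMap.toLp ⊤ (mu : Measure E) ℂ h) f := rfl
  rw [h3]
  filter_upwards [h1, h2] with x hx1 hx2
  rw [hx1, hx2]
  rfl

lemma M_one : M 1 = 1 := by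
  ext1 f
  apply Lp.ext
  filter_upwards [M_ae 1 f] with x hx
  rw [hx]
  simp

lemma M_mul (h k : C(E, ℂ)) : M (h * k) = M h * M k := by
  ext1 f
  apply Lp.ext
  filter_upwards [M_ae (h * k) f, M_ae h (M k f), M_ae k f] with x h1 h2 h3
  rw [h1]
  have : (M h * M k) f = M h (M k f) := rfl
  rw [this, h2, h3, ContinuousMap.mul_apply, mul_assoc]

lemma M_pow (h : C(E, ℂ)) (n : ℕ) : M (h ^ n) = M h ^ n := by
  induction n with
  | zero => rw [pow_zero, pow_zero, M_one]
  | succ n ih => rw [pow_succ, pow_succ, M_mul, ih]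

lemma M_norm (h : C(E, ℂ)) (hh : ∀ x, ‖h x‖ ≤ 1) : ‖M h‖ ≤ 1 := by
  apply ContinuousLinearMap.opNorm_le_bound _ zero_le_one
  intro f
  rw [one_mul]
  apply Lp.norm_le_norm_of_ae_le
  filter_upwards [M_ae h f] with x hx
  rw [hx, norm_mul]
  exact mul_le_of_le_one_left (norm_nonneg _) (hh x)

/-- the characters -/
def ec (t : ℝ) (n : ℕ) : C(E, ℂ) := ⟨fun x : E => ep t n x, (ep_cont t n).comp continuous_subtype_val⟩

lemma ec_apply (t : ℝ) (n : ℕ) (x : E) : ec t n x = ep t n x := rfl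

lemma ec_zero : ec 0 0 = 1 := by
  ext x
  simp [ec_apply, ep]

lemma ec_add (s t : ℝ) : ec (s + t) 0 = ec s 0 * ec t 0 := by
  ext x
  rw [ContinuousMap.mul_apply, ec_apply, ec_apply, ec_apply]
  unfold ep
  rw [← Complex.exp_add]
  congr 1
  push_cast
  ring

lemma ec_continuous : Continuous fun t : ℝ => ec t 0 := by
  apply ContinuousMap.continuous_of_continuous_uncurry
  unfold Function.uncurry
  simp only [ec_apply]
  unfold ep
  simp only [Nat.cast_zero, mul_zero, zero_mul, add_zero]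
  fun_prop

/-- the semigroup -/
def T (t : ℝ) : H →L[ℂ] H := M (ec t 0)

lemma T_zero : T 0 = 1 := by rw [T, ec_zero, M_one]

lemma T_add (s t : ℝ) : T (s + t) = T s * T t := by rw [T, ec_add, M_mul]; rfl

lemma T_cont : Continuous T := M.continuous.comp ec_continuous

lemma T_norm (t : ℝ) : ‖T t‖ ≤ 1 := M_norm _ (fun x => by rw [ec_apply, ep_norm])

/-- constants etc. as elements of the Hilbert space -/
def tp (h : C(E, ℂ)) : H := ContinuousMap.toLp 2 (mu : Measure E) ℂ h

lemma tp_ae (h : C(E, ℂ)) : (tp h : E → ℂ) =ᵐ[(mu : Measure E)] h := ContinuousMap.coeFn_toLp _ h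

lemma M_tp (h k : C(E, ℂ)) : M h (tp k) = tp (h * k) := by
  apply Lp.ext
  filter_upwards [M_ae h (tp k), tp_ae k, tp_ae (h * k)] with x h1 h2 h3
  rw [h1, h2, h3, ContinuousMap.mul_apply]

lemma inner_tp (h k : C(E, ℂ)) :
    inner ℂ (tp h) (tp k) = ∫ x : E, (starRingEnd ℂ) (h x) * k x ∂(mu : Measure E) := by
  rw [L2.inner_def]
  apply integral_congr_ae
  filter_upwards [tp_ae h, tp_ae k] with x h1 h2
  rw [h1, h2]
  simp [mul_comm]

lemma inner_T (a b t : ℝ) : inner ℂ (T t (tp (ec a 0))) (tp (ec b 0)) =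
    (starRingEnd ℂ) (∫ x : E, ep (t + a - b) 0 x ∂(mu : Measure E)) := by
  rw [T, M_tp, inner_tp, ← integral_conj]
  apply integral_congr_ae
  filter_upwards with x
  rw [ContinuousMap.mul_apply, ec_apply, ec_apply, ec_apply]
  unfold ep
  rw [← Complex.exp_add, ← Complex.exp_conj, ← Complex.exp_conj, ← Complex.exp_add]
  congr 1
  simp only [map_add, map_mul, Complex.conj_I, Complex.conj_ofReal]
  push_cast
  ring

lemma conv_T (a b : ℝ) :
    Tendsto (fun t : ℝ => inner ℂ (T t (tp (ec a 0))) (tp (ec b 0))) atTop (𝓝 0) := by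
  simp only [inner_T]
  have h1 : Tendsto (fun t : ℝ => t + a - b) atTop atTop := by
    have : (fun t : ℝ => t + a - b) = fun t : ℝ => t + (a - b) := by
      funext t
      ring
    rw [this]
    exact tendsto_atTop_add_const_right _ _ tendsto_id
  have h2 := (Complex.continuous_conj.tendsto 0).comp (mu_Rajchman.comp h1)
  rw [map_zero] at h2
  exact h2

/-- weak convergence on a dense subspace -/
lemma weak_of_dense (S : Submodule ℂ H) (hS : Dense (S : Set H))
    (h : ∀ x ∈ S, ∀ y ∈ S, Tendsto (fun t : ℝ => inner ℂ (T t x) y) atTop (𝓝 0)) (x y : H) :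
    Tendsto (fun t : ℝ => inner ℂ (T t x) y) atTop (𝓝 0) := by
  rw [Metric.tendsto_atTop]
  intro ε hε
  obtain ⟨x', hx', hxx⟩ := Metric.mem_closure_iff.1 (hS x) (ε / (3 * (‖y‖ + 1))) (by positivity)
  obtain ⟨y', hy', hyy⟩ := Metric.mem_closure_iff.1 (hS y) (ε / (3 * (‖x'‖ + 1))) (by positivity)
  obtain ⟨t0, ht0⟩ := (Metric.tendsto_atTop.1 (h x' hx' y' hy')) (ε / 3) (by positivity)
  refine ⟨t0, fun t ht => ?_⟩
  have h1 := ht0 t ht
  rw [dist_zero_right] at h1 ⊢
  have h2 : inner ℂ (T t x) y = inner ℂ (T t (x - x')) y + inner ℂ (T t x') (y - y') +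
      inner ℂ (T t x') y' := by
    rw [map_sub, inner_sub_left, inner_sub_right]
    ring
  have hT : ∀ z : H, ‖T t z‖ ≤ ‖z‖ := fun z => by
    refine ((T t).le_opNorm z).trans ?_
    exact mul_le_of_le_one_left (norm_nonneg _) (T_norm t)
  have h3 : ‖inner ℂ (T t (x - x')) y‖ < ε / 3 := by
    refine lt_of_le_of_lt (norm_inner_le_norm _ _) ?_
    have h4 : ‖T t (x - x')‖ ≤ ‖x - x'‖ := hT _
    rw [← dist_eq_norm] at h4
    have h5 : dist x x' * (‖y‖ + 1) < ε / 3 := by
      rw [lt_div_iff₀ (by positivity)] at hxx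
      linarith
    have h6 : ‖T t (x - x')‖ * ‖y‖ ≤ dist x x' * (‖y‖ + 1) :=
      mul_le_mul h4 (by linarith) (norm_nonneg _) dist_nonneg
    linarith
  have h4 : ‖inner ℂ (T t x') (y - y')‖ < ε / 3 := by
    refine lt_of_le_of_lt (norm_inner_le_norm _ _) ?_
    have h4 : ‖T t x'‖ ≤ ‖x'‖ + 1 := (hT _).trans (by linarith)
    have h5 : dist y y' * (‖x'‖ + 1) < ε / 3 := by
      rw [lt_div_iff₀ (by positivity)] at hyy
      linarith
    have h6 : ‖T t x'‖ * ‖y - y'‖ ≤ (‖x'‖ + 1) * dist y y' := by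
      rw [dist_eq_norm]
      exact mul_le_mul_of_nonneg_right h4 (norm_nonneg _)
    linarith
  rw [h2]
  refine lt_of_le_of_lt (norm_add₃_le) ?_
  linarith

/-- the algebra of trigonometric polynomials -/
def A : StarSubalgebra ℂ C(E, ℂ) where
  carrier := Submodule.span ℂ (range fun a : ℝ => ec a 0)
  mul_mem' := by
    intro f g hf hg
    refine Submodule.span_induction₂ (p := fun f g _ _ => f * g ∈ Submodule.span ℂ (range fun a : ℝ => ec a 0))
      ?_ ?_ ?_ ?_ ?_ ?_ ?_ hf hg
    · rintro _ _ ⟨a, rfl⟩ ⟨b, rfl⟩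
      refine Submodule.subset_span ⟨a + b, ?_⟩
      exact ec_add a b
    · intro y _
      simp
    · intro y _
      simp
    · intro x y z _ _ _ h1 h2
      rw [add_mul]
      exact Submodule.add_mem _ h1 h2
    · intro x y z _ _ _ h1 h2
      rw [mul_add]
      exact Submodule.add_mem _ h1 h2
    · intro r x y _ _ h1
      rw [smul_mul_assoc]
      exact Submodule.smul_mem _ _ h1
    · intro r x y _ _ h1
      rw [mul_smul_comm]
      exact Submodule.smul_mem _ _ h1
  add_mem' := fun h1 h2 => Submodule.add_mem _ h1 h2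
  algebraMap_mem' := by
    intro r
    rw [Algebra.algebraMap_eq_smul_one, ← ec_zero]
    exact Submodule.smul_mem _ _ (Submodule.subset_span ⟨0, rfl⟩)
  star_mem' := by
    intro f hf
    refine Submodule.span_induction (p := fun f _ => star f ∈ Submodule.span ℂ (range fun a : ℝ => ec a 0))
      ?_ ?_ ?_ ?_ hf
    · rintro _ ⟨a, rfl⟩
      refine Submodule.subset_span ⟨-a, ?_⟩
      ext x
      rw [ContinuousMap.star_apply]
      simp only [ec_apply]
      unfold ep
      rw [RCLike.star_def, ← Complex.exp_conj]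
      congr 1
      rw [map_mul, Complex.conj_I, Complex.conj_ofReal]
      push_cast
      ring
    · simp
    · intro x y _ _ h1 h2
      rw [star_add]
      exact Submodule.add_mem _ h1 h2
    · intro r x _ h1
      rw [star_smul]
      exact Submodule.smul_mem _ _ h1

lemma A_sep : A.toSubalgebra.SeparatesPoints := by
  intro x y hxy
  refine ⟨ec 1 0, ⟨ec 1 0, Submodule.subset_span ⟨1, rfl⟩, rfl⟩, ?_⟩
  rw [ec_apply, ec_apply]
  unfold ep
  intro h
  rw [Complex.exp_eq_exp_iff_exists_int] at h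
  obtain ⟨n, hn⟩ := h
  have h2 : (x : ℝ) - y = n * (2 * Real.pi) := by
    have h3 : Complex.I * (((x : ℝ) : ℂ) - ((y : ℝ) : ℂ) - n * (2 * Real.pi)) = 0 := by
      push_cast at hn
      linear_combination hn
    rcases mul_eq_zero.1 h3 with h | h
    · exact absurd h Complex.I_ne_zero
    · have : (((x : ℝ) - y - n * (2 * Real.pi) : ℝ) : ℂ) = 0 := by
        push_cast
        exact h
      rw [Complex.ofReal_eq_zero] at this
      linarith
  have hx := x.2
  have hy := y.2
  have hpi := Real.pi_gt_three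
  have hn0 : n = 0 := by
    by_contra hne
    have h4 : (1 : ℝ) ≤ |(n : ℝ)| := by exact_mod_cast Int.one_le_abs hne
    have h5 : |(x : ℝ) - y| ≤ 1 / 4 := by
      rw [abs_le]
      constructor <;> linarith [hx.1, hx.2, hy.1, hy.2]
    rw [h2, abs_mul, abs_of_pos (by positivity : 0 < 2 * Real.pi)] at h5
    nlinarith
  rw [hn0] at h2
  apply hxy
  apply Subtype.ext
  push_cast at h2
  linarith

lemma A_dense : Dense ((Submodule.span ℂ (range fun a : ℝ => ec a 0) : Submodule ℂ C(E, ℂ)) : Set C(E, ℂ)) := by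
  have h := ContinuousMap.starSubalgebra_topologicalClosure_eq_top_of_separatesPoints A A_sep
  have h2 : Dense (A : Set C(E, ℂ)) := by
    rw [dense_iff_closure_eq, ← StarSubalgebra.topologicalClosure_coe, h]
    rfl
  exact h2

/-- the dense subspace of the Hilbert space -/
def S : Submodule ℂ H := Submodule.span ℂ (range fun a : ℝ => tp (ec a 0))

lemma S_dense : Dense (S : Set H) := by
  have h1 : DenseRange (ContinuousMap.toLp 2 (mu : Measure E) ℂ : C(E, ℂ) →L[ℂ] H) :=
    ContinuousMap.toLp_denseRange ℂ (mu : Measure E) ℂ (by norm_num)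
  have h2 := h1.dense_image (ContinuousMap.toLp 2 (mu : Measure E) ℂ : C(E, ℂ) →L[ℂ] H).continuous A_dense
  refine h2.mono ?_
  rintro _ ⟨f, hf, rfl⟩
  have h3 : (Submodule.span ℂ (range fun a : ℝ => ec a 0)).map
      (ContinuousMap.toLp 2 (mu : Measure E) ℂ : C(E, ℂ) →L[ℂ] H).toLinearMap ≤ S := by
    rw [Submodule.map_span, Submodule.span_le]
    rintro _ ⟨_, ⟨a, rfl⟩, rfl⟩
    exact Submodule.subset_span ⟨a, rfl⟩
  exact h3 ⟨f, hf, rfl⟩

lemma T_weakly_stable (x y : H) : Tendsto (fun t : ℝ => inner ℂ (T t x) y) atTop (𝓝 0) := by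
  refine weak_of_dense S S_dense ?_ x y
  intro x hx y hy
  refine Submodule.span_induction (p := fun x _ => Tendsto (fun t : ℝ => inner ℂ (T t x) y) atTop (𝓝 0))
    ?_ ?_ ?_ ?_ hx
  · rintro _ ⟨a, rfl⟩
    refine Submodule.span_induction
      (p := fun y _ => Tendsto (fun t : ℝ => inner ℂ (T t (tp (ec a 0))) y) atTop (𝓝 0)) ?_ ?_ ?_ ?_ hy
    · rintro _ ⟨b, rfl⟩
      exact conv_T a b
    · simp
    · intro x y _ _ h1 h2
      simp only [inner_add_right]
      simpa using h1.add h2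
    · intro r x _ h1
      simp only [inner_smul_right]
      simpa using h1.const_mul r
  · simp
  · intro x y _ _ h1 h2
    simp only [map_add, inner_add_left]
    simpa using h1.add h2
  · intro r x _ h1
    simp only [map_smul, inner_smul_left]
    simpa using h1.const_mul ((starRingEnd ℂ) r)

/-- the resolvent symbol -/
def w : C(E, ℂ) := ∫ t in Ioi (0 : ℝ), ((Real.exp (-t) : ℝ) : ℂ) • ec t 0

lemma exp_int : IntegrableOn (fun t : ℝ => Real.exp (-t)) (Ioi 0) := by
  simpa using exp_neg_integrableOn_Ioi 0 (by norm_num : (0 : ℝ) < 1)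

lemma w_int : IntegrableOn (fun t : ℝ => ((Real.exp (-t) : ℝ) : ℂ) • ec t 0) (Ioi 0) := by
  refine Integrable.mono' exp_int ?_ ?_
  · apply Continuous.aestronglyMeasurable
    have := ec_continuous
    fun_prop
  · filter_upwards with t
    rw [norm_smul, Complex.norm_real, Real.norm_of_nonneg (Real.exp_pos _).le]
    apply mul_le_of_le_one_right (Real.exp_pos _).le
    rw [ContinuousMap.norm_le _ zero_le_one]
    intro x
    rw [ec_apply, ep_norm]

lemma w_apply (x : E) : w x = (1 - Complex.I * (x : ℝ))⁻¹ := by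
  have h1 : w x = ∫ t in Ioi (0 : ℝ), (((Real.exp (-t) : ℝ) : ℂ) • ec t 0) x := by
    have := ContinuousLinearMap.integral_comp_comm (ContinuousMap.evalCLM ℂ x) w_int
    exact this.symm
  rw [h1]
  have h2 : ∀ t : ℝ, (((Real.exp (-t) : ℝ) : ℂ) • ec t 0) x =
      Complex.exp ((-1 + Complex.I * (x : ℝ)) * t) := by
    intro t
    rw [ContinuousMap.smul_apply, ec_apply, smul_eq_mul]
    unfold ep
    rw [Complex.ofReal_exp, ← Complex.exp_add]
    congr 1
    push_cast
    ring
  simp only [h2]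
  rw [integral_exp_mul_complex_Ioi (by simp) 0]
  simp only [Complex.ofReal_zero, mul_zero, Complex.exp_zero]
  have h3 : (1 - Complex.I * (x : ℝ)) ≠ 0 := by
    intro h
    have := congrArg Complex.re h
    simp at this
  have h4 : (-1 + Complex.I * (x : ℝ)) ≠ 0 := by
    intro h
    have := congrArg Complex.re h
    simp at this
  field_simp
  ring

/-- the symbol of the cogenerator -/
def v : C(E, ℂ) := 1 - (2 : ℂ) • w

lemma v_apply (x : E) : v x = -ep 0 1 x := by
  have h1 : v x = 1 - 2 * (1 - Complex.I * (x : ℝ))⁻¹ := by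
    unfold v
    rw [ContinuousMap.sub_apply, ContinuousMap.smul_apply, w_apply]
    rfl
  rw [h1]
  have h3 : (1 - Complex.I * (x : ℝ)) ≠ 0 := by
    intro h
    have := congrArg Complex.re h
    simp at this
  have hs : (0 : ℝ) < Real.sqrt (1 + (x : ℝ) ^ 2) := by positivity
  have hs' : ((Real.sqrt (1 + (x : ℝ) ^ 2) : ℝ) : ℂ) ≠ 0 := by exact_mod_cast hs.ne'
  have hc : Complex.exp (Real.arctan x * Complex.I) = (1 + (x : ℝ) * Complex.I) / (Real.sqrt (1 + (x : ℝ) ^ 2) : ℝ) := by
    rw [Complex.exp_mul_I, ← Complex.ofReal_cos, ← Complex.ofReal_sin, Real.cos_arctan, Real.sin_arctan]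
    push_cast
    field_simp
  have hc' : Complex.exp (-(Real.arctan x * Complex.I)) = (1 - (x : ℝ) * Complex.I) / (Real.sqrt (1 + (x : ℝ) ^ 2) : ℝ) := by
    have : -((Real.arctan x : ℂ) * Complex.I) = ((-Real.arctan x : ℝ) : ℂ) * Complex.I := by push_cast; ring
    rw [this, Complex.exp_mul_I, ← Complex.ofReal_cos, ← Complex.ofReal_sin, Real.cos_neg, Real.sin_neg,
      Real.cos_arctan, Real.sin_arctan]
    push_cast
    field_simp
    ring
  have he : ep 0 1 x = Complex.exp (Real.arctan x * Complex.I) / Complex.exp (-(Real.arctan x * Complex.I)) := by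
    rw [← Complex.exp_sub]
    unfold ep
    congr 1
    push_cast
    ring
  have h5 : (1 - (x : ℝ) * Complex.I) ≠ 0 := by rwa [mul_comm]
  rw [he, hc, hc']
  rw [div_div_div_cancel_right₀ hs', mul_comm Complex.I]
  field_simp
  ring

lemma ep_pow (x : ℝ) (n : ℕ) : ep 0 1 x ^ n = ep 0 n x := by
  unfold ep
  rw [← Complex.exp_nat_mul]
  congr 1
  push_cast
  ring

lemma v_pow_apply {n : ℕ} (hn : Even n) (x : E) : (v ^ n) x = ep 0 n x := by
  rw [ContinuousMap.pow_apply, v_apply, hn.neg_pow, ep_pow]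

lemma cog_eq (z : H) :
    z - (2 : ℂ) • ∫ t in Ioi (0 : ℝ), ((Real.exp (-t) : ℝ) : ℂ) • T t z = M v z := by
  have h1 : ∫ t in Ioi (0 : ℝ), ((Real.exp (-t) : ℝ) : ℂ) • T t z = M w z := by
    have := ContinuousLinearMap.integral_comp_comm (M.flip z) w_int
    have h2 : (M.flip z) w = M w z := rfl
    unfold w at h2 ⊢
    rw [← h2, ← this]
    congr 1
    funext t
    rw [map_smul]
    rfl
  rw [h1]
  unfold v
  rw [map_sub, map_smul, M_one]
  rfl

lemma iter_eq (n : ℕ) (z : H) :
    (fun z : H => z - (2 : ℂ) • ∫ t in Ioi (0 : ℝ), ((Real.exp (-t) : ℝ) : ℂ) • T t z)^[n] z =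
      M (v ^ n) z := by
  have h1 : (fun z : H => z - (2 : ℂ) • ∫ t in Ioi (0 : ℝ), ((Real.exp (-t) : ℝ) : ℂ) • T t z) =
      (M v : H → H) := by
    funext z
    exact cog_eq z
  rw [h1, M_pow]
  induction n with
  | zero => simp
  | succ n ih =>
    rw [Function.iterate_succ', Function.comp, ih, pow_succ']
    rfl

lemma V_not_weakly_stable :
    ¬ ∀ x y : H, Tendsto (fun n : ℕ =>
      inner ℂ ((fun z : H => z - (2 : ℂ) •
        ∫ t in Ioi (0 : ℝ), ((Real.exp (-t) : ℝ) : ℂ) • T t z)^[n] x) y) atTop (𝓝 0) := by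
  intro h
  have h1 := h (tp 1) (tp 1)
  simp only [iter_eq] at h1
  have h2 : Tendsto fr atTop atTop := tendsto_atTop_mono fr_ge tendsto_id
  have h3 := h1.comp h2
  have h4 : ∀ j : ℕ, 1 / 16 ≤ (inner ℂ (M (v ^ fr j) (tp 1)) (tp 1)).re := by
    intro j
    rw [M_tp, inner_tp]
    have h5 : ∫ x : E, (starRingEnd ℂ) ((v ^ fr j * 1 : C(E, ℂ)) x) * (1 : C(E, ℂ)) x ∂(mu : Measure E) =
        (starRingEnd ℂ) (∫ x : E, ep 0 (fr j) x ∂(mu : Measure E)) := by
      rw [← integral_conj]
      apply integral_congr_ae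
      filter_upwards with x
      rw [mul_one, v_pow_apply (fr_even j), ContinuousMap.one_apply, mul_one]
    rw [h5, Complex.conj_re]
    exact mu_circle j
  have h6 := (Complex.continuous_re.tendsto _).comp h3
  have h7 : (1 / 16 : ℝ) ≤ (0 : ℂ).re := ge_of_tendsto' h6 (fun j => h4 j)
  rw [Complex.zero_re] at h7
  norm_num at h7

end

end Pool.Agent.Q30.Cog
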