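import Pool.Agent.Helper276.CogenEst

/-!
# A nonlinear Riesz product on `[1/4, 1/2]`
-/

set_option autoImplicit false
open Filter Topology MeasureTheory Set

namespace Pool.Agent.Q30.Cog

open Pool.Agent.Helper276.CogenEst

noncomputable section

/-- the unimodular function `exp (i (t y - 2 n arctan y))` -/
def ee (t : ℝ) (n : ℕ) (y : ℝ) : ℂ := Complex.exp (Complex.I * ((t * y - 2 * n * Real.arctan y : ℝ) : ℂ))

/-- the unimodular function `exp (i (t y + 2 n arctan y))` -/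
def ep (t : ℝ) (n : ℕ) (y : ℝ) : ℂ := Complex.exp (Complex.I * ((t * y + 2 * n * Real.arctan y : ℝ) : ℂ))

lemma ee_cont (t : ℝ) (n : ℕ) : Continuous (ee t n) := by
  unfold ee
  have := Real.continuous_arctan
  fun_prop

lemma ep_cont (t : ℝ) (n : ℕ) : Continuous (ep t n) := by
  unfold ep
  have := Real.continuous_arctan
  fun_prop

lemma ee_norm (t : ℝ) (n : ℕ) (y : ℝ) : ‖ee t n y‖ = 1 := by
  unfold ee
  rw [mul_comm, Complex.norm_exp_ofReal_mul_I]

lemma ep_norm (t : ℝ) (n : ℕ) (y : ℝ) : ‖ep t n y‖ = 1 := by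
  unfold ep
  rw [mul_comm, Complex.norm_exp_ofReal_mul_I]

lemma ep_eq_conj (t : ℝ) (n : ℕ) (y : ℝ) : ep t n y = (starRingEnd ℂ) (ee (-t) n y) := by
  unfold ep ee
  rw [← Complex.exp_conj]
  congr 1
  rw [map_mul, Complex.conj_I, Complex.conj_ofReal]
  push_cast
  ring

/-- van der Corput with a fixed `C¹` amplitude -/
lemma osc_amp (g g' : ℝ → ℂ) (hg : ∀ x, HasDerivAt g (g' x) x) (hg' : Continuous g') {ε : ℝ}
    (hε : 0 < ε) :
    ∃ N : ℕ, ∀ n : ℕ, N ≤ n → ∀ t : ℝ, ‖∫ y in (1 / 4 : ℝ)..(1 / 2), g y * ee t n y‖ ≤ ε := by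
  set C : ℝ := ‖g (1 / 2)‖ + ∫ y in (1 / 4 : ℝ)..(1 / 2), ‖g' y‖ with hC
  have hC0 : 0 ≤ C := by
    have : 0 ≤ ∫ y in (1 / 4 : ℝ)..(1 / 2), ‖g' y‖ :=
      intervalIntegral.integral_nonneg (by norm_num) (fun _ _ => norm_nonneg _)
    positivity
  obtain ⟨N, hN⟩ := osc_small (ε := ε / (C + 1)) (by positivity)
  refine ⟨N, fun n hn t => ?_⟩
  set v : ℝ → ℂ := fun x => ∫ y in (1 / 4 : ℝ)..x, ee t n y with hv
  have hv' : ∀ x, HasDerivAt v (ee t n x) x := fun x =>
    intervalIntegral.integral_hasDerivAt_right ((ee_cont t n).intervalIntegrable _ _)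
      ((ee_cont t n).stronglyMeasurableAtFilter _ _) (ee_cont t n).continuousAt
  have hvb : ∀ x ∈ Icc (1 / 4 : ℝ) (1 / 2), ‖v x‖ ≤ ε / (C + 1) := by
    intro x hx
    have := hN n hn t 0 x hx
    simpa [hv, ee, ph] using this
  have hparts := intervalIntegral.integral_mul_deriv_eq_deriv_mul (a := 1 / 4) (b := 1 / 2)
    (u := g) (v := v) (u' := g') (v' := ee t n) (fun x _ => hg x) (fun x _ => hv' x)
    (hg'.intervalIntegrable _ _) ((ee_cont t n).intervalIntegrable _ _)
  rw [hparts]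
  have hv0 : v (1 / 4) = 0 := by simp [hv]
  rw [hv0, mul_zero, sub_zero]
  have h1 : ‖∫ x in (1 / 4 : ℝ)..(1 / 2), g' x * v x‖ ≤
      ∫ x in (1 / 4 : ℝ)..(1 / 2), ‖g' x‖ * (ε / (C + 1)) := by
    apply intervalIntegral.norm_integral_le_of_norm_le (by norm_num)
    · filter_upwards with x hx
      rw [norm_mul]
      exact mul_le_mul_of_nonneg_left (hvb x ⟨hx.1.le, hx.2⟩) (norm_nonneg _)
    · exact ((hg'.norm).mul continuous_const).intervalIntegrable _ _
  rw [intervalIntegral.integral_mul_const] at h1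
  have h2 : ‖g (1 / 2) * v (1 / 2)‖ ≤ ‖g (1 / 2)‖ * (ε / (C + 1)) := by
    rw [norm_mul]
    exact mul_le_mul_of_nonneg_left (hvb _ ⟨by norm_num, le_rfl⟩) (norm_nonneg _)
  calc ‖g (1 / 2) * v (1 / 2) - ∫ x in (1 / 4 : ℝ)..(1 / 2), g' x * v x‖
      ≤ ‖g (1 / 2) * v (1 / 2)‖ + ‖∫ x in (1 / 4 : ℝ)..(1 / 2), g' x * v x‖ := norm_sub_le _ _
    _ ≤ C * (ε / (C + 1)) := by
        rw [hC, add_mul]
        exact add_le_add h2 h1
    _ ≤ ε := by
        rw [mul_div_assoc', div_le_iff₀ (by positivity)]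
        nlinarith

/-- the partial Riesz products -/
def g : List ℕ → ℝ → ℝ
  | [], _ => 1
  | m :: L, x => g L x * (1 + Real.cos (2 * m * Real.arctan x))

lemma g_nonneg (L : List ℕ) (x : ℝ) : 0 ≤ g L x := by
  induction L with
  | nil => simp [g]
  | cons m L ih =>
    rw [g]
    exact mul_nonneg ih (by linarith [Real.neg_one_le_cos (2 * m * Real.arctan x)])

lemma g_smooth (L : List ℕ) : ContDiff ℝ 1 (g L) := by
  induction L with
  | nil => exact contDiff_const
  | cons m L ih =>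
    have : g (m :: L) = fun x => g L x * (1 + Real.cos (2 * m * Real.arctan x)) := rfl
    rw [this]
    have h2 : ContDiff ℝ 1 Real.arctan := Real.contDiff_arctan
    exact ih.mul (contDiff_const.add (Real.contDiff_cos.comp (contDiff_const.mul h2)))

lemma g_cont (L : List ℕ) : Continuous (g L) := (g_smooth L).continuous

lemma osc_g (L : List ℕ) {ε : ℝ} (hε : 0 < ε) :
    ∃ N : ℕ, ∀ n : ℕ, N ≤ n → ∀ t : ℝ,
      ‖∫ y in (1 / 4 : ℝ)..(1 / 2), (g L y : ℂ) * ee t n y‖ ≤ ε ∧
      ‖∫ y in (1 / 4 : ℝ)..(1 / 2), (g L y : ℂ) * ep t n y‖ ≤ ε := by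
  obtain ⟨N, hN⟩ := osc_amp (fun y => (g L y : ℂ)) (fun y => ((deriv (g L) y : ℝ) : ℂ))
    (fun x => (((g_smooth L).differentiable (by norm_num)) x).hasDerivAt.ofReal_comp)
    (Complex.continuous_ofReal.comp ((g_smooth L).continuous_deriv le_rfl)) hε
  refine ⟨N, fun n hn t => ⟨hN n hn t, ?_⟩⟩
  have h1 := hN n hn (-t)
  have h2 : ∫ y in (1 / 4 : ℝ)..(1 / 2), (g L y : ℂ) * ep t n y =
      (starRingEnd ℂ) (∫ y in (1 / 4 : ℝ)..(1 / 2), (g L y : ℂ) * ee (-t) n y) := by
    rw [intervalIntegral.intervalIntegral_eq_integral_uIoc,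
      intervalIntegral.intervalIntegral_eq_integral_uIoc, if_pos (by norm_num), one_smul, one_smul,
      ← integral_conj]
    apply integral_congr_ae
    filter_upwards with y
    rw [ep_eq_conj, map_mul, Complex.conj_ofReal]
  rw [h2, RCLike.norm_conj]
  exact h1

/-- the error allowed at stage `k` -/
def er (k : ℕ) : ℝ := (1 / 64) * (1 / 2) ^ k

lemma er_pos (k : ℕ) : 0 < er k := by unfold er; positivity

/-- the next frequency -/
def nx (L : List ℕ) : ℕ :=
  2 * ((osc_g L (er_pos L.length)).choose + L.sum + 1)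

lemma nx_spec (L : List ℕ) (n : ℕ) (hn : nx L ≤ 2 * n) (t : ℝ) :
    ‖∫ y in (1 / 4 : ℝ)..(1 / 2), (g L y : ℂ) * ee t n y‖ ≤ er L.length ∧
      ‖∫ y in (1 / 4 : ℝ)..(1 / 2), (g L y : ℂ) * ep t n y‖ ≤ er L.length := by
  apply (osc_g L (er_pos L.length)).choose_spec n
  unfold nx at hn
  omega

lemma nx_large (L : List ℕ) {m : ℕ} (hm : m ∈ L) : 2 * m ≤ nx L := by
  have := List.le_sum_of_mem hm
  unfold nx
  omega

lemma nx_even (L : List ℕ) : Even (nx L) := ⟨_, two_mul _⟩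

/-- the list of the first `k` frequencies (latest first) -/
def LL : ℕ → List ℕ
  | 0 => []
  | k + 1 => nx (LL k) :: LL k

lemma LL_length (k : ℕ) : (LL k).length = k := by
  induction k with
  | zero => rfl
  | succ k ih => simp [LL, ih]

/-- the frequencies -/
def fr (k : ℕ) : ℕ := nx (LL k)

lemma fr_mem {j k : ℕ} (h : j < k) : fr j ∈ LL k := by
  induction k with
  | zero => omega
  | succ k ih =>
    rw [LL]
    rcases Nat.lt_succ_iff_lt_or_eq.1 h with h | h
    · exact List.mem_cons_of_mem _ (ih h)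
    · subst h
      exact List.mem_cons_self

lemma fr_two {j k : ℕ} (h : j < k) : 2 * fr j ≤ fr k := nx_large _ (fr_mem h)

/-- the partial densities -/
def G (k : ℕ) : ℝ → ℝ := g (LL k)

lemma G_succ (k : ℕ) (x : ℝ) : G (k + 1) x = G k x * (1 + Real.cos (2 * fr k * Real.arctan x)) := rfl

lemma G_cont (k : ℕ) : Continuous (G k) := g_cont _

lemma G_nonneg (k : ℕ) (x : ℝ) : 0 ≤ G k x := g_nonneg _ _

/-- the generalized Fourier coefficients of the partial densities -/
def F (k : ℕ) (t : ℝ) (n : ℕ) : ℂ := ∫ y in (1 / 4 : ℝ)..(1 / 2), (G k y : ℂ) * ep t n y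

lemma F_small (k : ℕ) (t : ℝ) (n : ℕ) (hn : fr k ≤ 2 * n) :
    ‖∫ y in (1 / 4 : ℝ)..(1 / 2), (G k y : ℂ) * ee t n y‖ ≤ er k ∧ ‖F k t n‖ ≤ er k := by
  have := nx_spec (LL k) n hn t
  rwa [LL_length] at this

lemma cos_eq (t : ℝ) (n m : ℕ) (h : n ≤ m) (y : ℝ) :
    ep t n y * ((Real.cos (2 * m * Real.arctan y) : ℝ) : ℂ) =
      (1 / 2) * ep t (m + n) y + (1 / 2) * ee t (m - n) y := by
  rw [Complex.ofReal_cos, Complex.cos]
  unfold ep ee
  rw [← mul_div_assoc, mul_add, ← Complex.exp_add, ← Complex.exp_add, add_div, Nat.cast_sub h]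
  have h1 : Complex.I * ((t * y + 2 * n * Real.arctan y : ℝ) : ℂ) +
      ((2 * m * Real.arctan y : ℝ) : ℂ) * Complex.I =
      Complex.I * ((t * y + 2 * ((m + n : ℕ) : ℝ) * Real.arctan y : ℝ) : ℂ) := by
    push_cast
    ring
  have h2 : Complex.I * ((t * y + 2 * n * Real.arctan y : ℝ) : ℂ) +
      -((2 * m * Real.arctan y : ℝ) : ℂ) * Complex.I =
      Complex.I * ((t * y - 2 * ((m : ℝ) - n) * Real.arctan y : ℝ) : ℂ) := by
    push_cast
    ring
  rw [h1, h2]
  ring

lemma F_succ (k : ℕ) (t : ℝ) (n : ℕ) (hn : n ≤ fr k) :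
    F (k + 1) t n = F k t n + (1 / 2) * F k t (fr k + n) +
      (1 / 2) * ∫ y in (1 / 4 : ℝ)..(1 / 2), (G k y : ℂ) * ee t (fr k - n) y := by
  have hGc : Continuous fun y => (G k y : ℂ) := Complex.continuous_ofReal.comp (G_cont k)
  unfold F
  rw [← intervalIntegral.integral_const_mul, ← intervalIntegral.integral_const_mul,
    ← intervalIntegral.integral_add, ← intervalIntegral.integral_add]
  · apply intervalIntegral.integral_congr
    intro y _
    simp only []
    rw [G_succ]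
    have := cos_eq t n (fr k) hn y
    push_cast
    push_cast at this
    linear_combination (G k y : ℂ) * this
  · exact ((hGc.mul (ep_cont _ _)).intervalIntegrable _ _).add
      ((continuous_const.mul (hGc.mul (ep_cont _ _))).intervalIntegrable _ _)
  · exact (continuous_const.mul (hGc.mul (ee_cont _ _))).intervalIntegrable _ _
  · exact (hGc.mul (ep_cont _ _)).intervalIntegrable _ _
  · exact (continuous_const.mul (hGc.mul (ep_cont _ _))).intervalIntegrable _ _

/-- the main step: stage `k` changes the coefficients with `2 n ≤ fr k` by at most `er k` -/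
lemma F_step (k : ℕ) (t : ℝ) (n : ℕ) (hn : 2 * n ≤ fr k) : ‖F (k + 1) t n - F k t n‖ ≤ er k := by
  rw [F_succ k t n (by omega)]
  have h1 := (F_small k t (fr k + n) (by omega)).2
  have h2 := (F_small k t (fr k - n) (by omega)).1
  have h3 : F k t n + (1 / 2) * F k t (fr k + n) +
      (1 / 2) * (∫ y in (1 / 4 : ℝ)..(1 / 2), (G k y : ℂ) * ee t (fr k - n) y) - F k t n =
      (1 / 2) * (F k t (fr k + n) +
        ∫ y in (1 / 4 : ℝ)..(1 / 2), (G k y : ℂ) * ee t (fr k - n) y) := by ring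
  rw [h3, norm_mul]
  have h4 : ‖(1 / 2 : ℂ)‖ = 1 / 2 := by norm_num
  rw [h4]
  have := norm_add_le (F k t (fr k + n))
    (∫ y in (1 / 4 : ℝ)..(1 / 2), (G k y : ℂ) * ee t (fr k - n) y)
  linarith

lemma F_tail {j k : ℕ} (hjk : j ≤ k) (t : ℝ) (n : ℕ) (hn : 2 * n ≤ fr j) :
    ‖F k t n - F j t n‖ ≤ (1 / 32) * ((1 / 2) ^ j - (1 / 2) ^ k) := by
  induction k, hjk using Nat.le_induction with
  | base => simp
  | succ k hk ih =>
    have h1 : 2 * n ≤ fr k := by
      rcases hk.eq_or_lt with h | h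
      · rw [← h]; exact hn
      · have := fr_two h
        omega
    have h2 := F_step k t n h1
    have h3 : F (k + 1) t n - F j t n = (F (k + 1) t n - F k t n) + (F k t n - F j t n) := by ring
    rw [h3]
    refine (norm_add_le _ _).trans ?_
    unfold er at h2
    rw [pow_succ]
    linarith

lemma F_zero_zero : F 0 0 0 = 1 / 4 := by
  unfold F G LL
  simp [g, ep]
  norm_num

/-- the total mass -/
lemma F_mass (k : ℕ) : ‖F k 0 0 - 1 / 4‖ ≤ 1 / 32 := by
  have := F_tail (Nat.zero_le k) 0 0 (by omega)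
  rw [F_zero_zero] at this
  have h2 : (0 : ℝ) ≤ (1 / 2) ^ k := by positivity
  simp only [pow_zero] at this
  linarith

lemma ee_fr_fr (t : ℝ) (k : ℕ) : ∫ y in (1 / 4 : ℝ)..(1 / 2), (G k y : ℂ) * ee t (fr k - fr k) y =
    F k t 0 := by
  unfold F ee ep
  simp

/-- the coefficients on the circle do not tend to zero -/
lemma F_large {j k : ℕ} (hjk : j < k) : 1 / 16 ≤ (F k 0 (fr j)).re := by
  have h1 := F_succ j 0 (fr j) le_rfl
  rw [ee_fr_fr] at h1
  have h2 := (F_small j 0 (fr j) (by omega)).2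
  have h3 := (F_small j 0 (fr j + fr j) (by omega)).2
  have h4 := F_mass j
  have h5 := F_tail (Nat.succ_le_of_lt hjk) 0 (fr j) (fr_two (Nat.lt_succ_self j))
  have h6 : (0 : ℝ) ≤ (1 / 2) ^ k := by positivity
  have h7 : (1 / 2 : ℝ) ^ (j + 1) ≤ 1 / 2 := by
    rw [pow_succ]
    have : (1 / 2 : ℝ) ^ j ≤ 1 := pow_le_one₀ (by norm_num) (by norm_num)
    linarith
  have h8 : er j ≤ 1 / 64 := by
    unfold er
    have : (1 / 2 : ℝ) ^ j ≤ 1 := pow_le_one₀ (by norm_num) (by norm_num)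
    linarith
  have e2 := (Complex.abs_re_le_norm _).trans h2
  have e3 := (Complex.abs_re_le_norm _).trans h3
  have e4 := (Complex.abs_re_le_norm _).trans h4
  have e5 := (Complex.abs_re_le_norm _).trans h5
  have e1 := congrArg Complex.re h1
  have hhalf : ∀ z : ℂ, ((1 / 2 : ℂ) * z).re = z.re / 2 := by
    intro z
    simp
    ring
  rw [Complex.add_re, Complex.add_re, hhalf, hhalf] at e1
  rw [Complex.sub_re] at e4 e5
  have hq : ((1 / 4 : ℂ)).re = 1 / 4 := by norm_num
  rw [hq] at e4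
  rw [abs_le] at e2 e3 e4 e5
  have : (F (j + 1) 0 (fr j)).re = (F (Nat.succ j) 0 (fr j)).re := rfl
  have h9 : (F (Nat.succ j) 0 (fr j)).re - (1 / 32) * (1 / 2) ≤ (F k 0 (fr j)).re := by
    have := e5.1
    simp only [Nat.succ_eq_add_one] at *
    linarith
  simp only [Nat.succ_eq_add_one] at *
  linarith [e2.1, e3.1, e4.1]

/-- the Riemann-Lebesgue lemma for the partial products -/
lemma F_RL (k : ℕ) : Tendsto (fun t : ℝ => F k t 0) atTop (𝓝 0) := by
  have h1 := Real.tendsto_integral_exp_smul_cocompact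
    (fun y : ℝ => (Ioc (1 / 4 : ℝ) (1 / 2)).indicator (fun y => (G k y : ℂ)) y)
  have h2 : Tendsto (fun t : ℝ => -(t / (2 * Real.pi))) atTop (cocompact ℝ) := by
    have h3 : Tendsto (fun t : ℝ => -(t / (2 * Real.pi))) atTop atBot := by
      apply tendsto_neg_atTop_atBot.comp
      exact tendsto_id.atTop_div_const (by positivity)
    exact h3.mono_right (by rw [cocompact_eq_atBot_atTop]; exact le_sup_left)
  refine (h1.comp h2).congr (fun t => ?_)
  simp only [Function.comp]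
  unfold F
  rw [intervalIntegral.integral_of_le (by norm_num), ← integral_indicator measurableSet_Ioc]
  congr 1
  funext y
  by_cases hy : y ∈ Ioc (1 / 4 : ℝ) (1 / 2)
  · rw [indicator_of_mem hy, indicator_of_mem hy, Circle.smul_def, Real.fourierChar_apply, smul_eq_mul,
      mul_comm]
    congr 1
    unfold ep
    congr 1
    push_cast
    have : (Real.pi : ℂ) ≠ 0 := by exact_mod_cast Real.pi_ne_zero
    field_simp
    ring
  · rw [indicator_of_notMem hy, indicator_of_notMem hy, smul_zero]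

end

end Pool.Agent.Q30.Cog
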